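import Pool.Agent.W209.KT.Stm

/-! KT-CB: fine count in long intervals. -/

set_option autoImplicit false

namespace Pool.Agent.W410.KT.CB

open Pool.Agent.W209.KT

lemma nrm_sub (a b : ℝ) : nrm (a - b) ≤ nrm a + nrm b := by
  unfold nrm
  calc |a - b - round (a - b)| ≤ |a - b - ((round a - round b : ℤ) : ℝ)| := round_le _ _
    _ = |(a - round a) - (b - round b)| := by push_cast; congr 1; ring
    _ ≤ |a - round a| + |b - round b| := abs_sub _ _

/-- the set of solutions -/
def Sol (α : Fin 2 → ℝ) (L : ℕ) (ψ : ℝ) : Set ℤ := {y : ℤ | |y| ≤ (L : ℤ) ∧ ∀ j, nrm (α j * y) ≤ ψ}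

lemma sol_sub (α : Fin 2 → ℝ) (L : ℕ) (ψ : ℝ) : Sol α L ψ ⊆ Set.Icc (-(L : ℤ)) L := by
  intro y hy
  exact abs_le.1 hy.1

lemma sol_fin (α : Fin 2 → ℝ) (L : ℕ) (ψ : ℝ) : (Sol α L ψ).Finite :=
  (Set.finite_Icc _ _).subset (sol_sub α L ψ)

lemma cnt_eq (α : Fin 2 → ℝ) (L : ℕ) (ψ : ℝ) : cnt α L ψ = (Sol α L ψ).ncard := rfl

lemma cnt_triv (α : Fin 2 → ℝ) (L : ℕ) (ψ : ℝ) : cnt α L ψ ≤ 2 * L + 1 := by
  rw [cnt_eq]
  refine (Set.ncard_le_ncard (sol_sub α L ψ) (Set.finite_Icc _ _)).trans ?_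
  rw [← Finset.coe_Icc, Set.ncard_coe_finset, Int.card_Icc]
  omega

lemma cnt_cover (α : Fin 2 → ℝ) (L L0 : ℕ) (ψ : ℝ) (hL0 : 1 ≤ L0) :
    cnt α L ψ ≤ cnt α L0 (2 * ψ) * (2 * (L / L0) + 2) := by
  classical
  have hL0' : (0 : ℤ) < L0 := by exact_mod_cast hL0
  set T : Finset ℤ := (sol_fin α L ψ).toFinset with hT
  have h1 : cnt α L ψ = T.card := by
    rw [cnt_eq, hT, Set.ncard_eq_toFinset_card _ (sol_fin α L ψ)]
  have h2 : (Finset.Icc (-((L : ℤ) / L0) - 1) ((L : ℤ) / L0)).card = 2 * (L / L0) + 2 := by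
    rw [Int.card_Icc]
    have : ((L : ℤ) / L0) = ((L / L0 : ℕ) : ℤ) := by push_cast; rfl
    rw [this]
    omega
  rw [h1, ← h2]
  apply Finset.card_le_mul_card_image_of_maps_to (f := fun y : ℤ => y / (L0 : ℤ))
  · intro y hy
    rw [hT, Set.Finite.mem_toFinset] at hy
    have hy' := sol_sub α L ψ hy
    rw [Set.mem_Icc] at hy'
    rw [Finset.mem_Icc]
    constructor
    · apply Int.le_ediv_of_mul_le hL0'
      have e1 := Int.mul_ediv_add_emod (L : ℤ) L0
      have e2 := Int.emod_lt_of_pos (L : ℤ) hL0'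
      nlinarith
    · exact Int.ediv_le_ediv hL0' hy'.2
  · intro b _
    rcases (T.filter (fun a => a / (L0 : ℤ) = b)).eq_empty_or_nonempty with h | ⟨y1, hy1⟩
    · rw [h]; simp
    · have hy1' := Finset.mem_filter.1 hy1
      have hy1s : y1 ∈ Sol α L ψ := by
        have := hy1'.1
        rwa [hT, Set.Finite.mem_toFinset] at this
      have hinj : Function.Injective (fun y : ℤ => y - y1) := fun a b h => by
        simpa using h
      rw [← Finset.card_image_of_injective _ hinj, cnt_eq, ← Set.ncard_coe_finset]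
      apply Set.ncard_le_ncard _ (sol_fin _ _ _)
      intro z hz
      rw [Finset.mem_coe, Finset.mem_image] at hz
      obtain ⟨y, hy, rfl⟩ := hz
      have hy' := Finset.mem_filter.1 hy
      have hys : y ∈ Sol α L ψ := by
        have := hy'.1
        rwa [hT, Set.Finite.mem_toFinset] at this
      refine ⟨?_, fun j => ?_⟩
      · have e1 := Int.mul_ediv_add_emod y L0
        have e2 := Int.emod_lt_of_pos y hL0'
        have e3 := Int.emod_nonneg y hL0'.ne'
        have e4 := Int.mul_ediv_add_emod y1 L0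
        have e5 := Int.emod_lt_of_pos y1 hL0'
        have e6 := Int.emod_nonneg y1 hL0'.ne'
        rw [hy'.2] at e1
        rw [hy1'.2] at e4
        rw [abs_le]
        constructor <;> linarith
      · have h3 := nrm_sub (α j * y) (α j * y1)
        have h4 := hys.2 j
        have h5 := hy1s.2 j
        have h6 : α j * ((y - y1 : ℤ) : ℝ) = α j * y - α j * y1 := by push_cast; ring
        rw [h6]
        linarith

lemma D_pos (k : ℕ) : (0 : ℝ) < D k := by
  unfold D
  positivity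

lemma F_pos (k : ℕ) : 0 < F k := by
  unfold F
  have := D_pos k
  positivity

theorem CB (h : S_CB0) : S_CB := by
  obtain ⟨C, hC, hb⟩ := h
  refine ⟨640 * C + 120, by positivity, ?_⟩
  intro A s hA k L ψ hψ hψD hL
  have hD := D_pos k
  have hF := F_pos k
  have hLR : (1 : ℝ) ≤ L := by exact_mod_cast hL
  set X : ℝ := ψ * (D k : ℝ) ^ 36 with hX
  have hXp : 0 < X := by positivity
  set P : ℝ := L * D k * ψ / F k with hP
  have hP0 : 0 ≤ P := by positivity
  set R : ℝ := min (D k * ψ * F k) L / (D k : ℝ) ^ 2 with hR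
  have hR0 : 0 ≤ R := by
    rw [hR]
    have : 0 ≤ min (D k * ψ * F k) (L : ℝ) := le_min (by positivity) (by positivity)
    positivity
  have hLX : 0 ≤ L / X := by positivity
  by_cases c0 : (L : ℝ) * 20 ≤ X
  · have h1 := hb A s hA k L ψ hψ (by nlinarith [mul_pos hψ hD]) hL c0
    refine h1.trans ?_
    have h2 : (1 + L * D k * ψ / F k) * (1 + min (D k * ψ * F k) L / (D k : ℝ) ^ 2) ≤
        (1 + L / X + P) * (1 + R) := by
      apply mul_le_mul_of_nonneg_right _ (by linarith)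
      linarith
    calc C * (1 + L * D k * ψ / F k) * (1 + min (D k * ψ * F k) L / (D k : ℝ) ^ 2)
        = C * ((1 + L * D k * ψ / F k) * (1 + min (D k * ψ * F k) L / (D k : ℝ) ^ 2)) := by ring
      _ ≤ C * ((1 + L / X + P) * (1 + R)) := mul_le_mul_of_nonneg_left h2 hC.le
      _ ≤ (640 * C + 120) * ((1 + L / X + P) * (1 + R)) := by
          apply mul_le_mul_of_nonneg_right (by linarith) (by positivity)
      _ = _ := by ring
  push Not at c0
  by_cases c1 : X < 40
  · have h1 : (cnt (fun j => A j 10) L ψ : ℝ) ≤ 2 * L + 1 := by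
      exact_mod_cast cnt_triv (fun j => A j 10) L ψ
    have h2 : (L : ℝ) / 40 ≤ L / X := by
      apply div_le_div_of_nonneg_left (by positivity) hXp c1.le
    have h3 : (cnt (fun j => A j 10) L ψ : ℝ) ≤ 120 * (L / X) := by linarith
    calc (cnt (fun j => A j 10) L ψ : ℝ) ≤ 120 * (L / X) := h3
      _ ≤ (640 * C + 120) * (1 + L / X + P) := by
          apply mul_le_mul (by linarith) (by linarith) hLX (by positivity)
      _ = (640 * C + 120) * (1 + L / X + P) * 1 := by ring
      _ ≤ (640 * C + 120) * (1 + L / X + P) * (1 + R) := by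
          apply mul_le_mul_of_nonneg_left (by linarith) (by positivity)
  push Not at c1
  set L0 : ℕ := ⌊X / 40⌋₊ with hL0
  have hX40 : 1 ≤ X / 40 := by rw [le_div_iff₀ (by norm_num)]; linarith
  have hL01 : 1 ≤ L0 := by
    rw [hL0, Nat.one_le_floor_iff]
    exact hX40
  have hL0le : (L0 : ℝ) ≤ X / 40 := Nat.floor_le (by positivity)
  have hL0ge : X / 80 ≤ L0 := by
    have h1 : X / 40 < L0 + 1 := Nat.lt_floor_add_one _
    have h2 : (1 : ℝ) ≤ L0 := by exact_mod_cast hL01
    linarith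
  have hL0p : (0 : ℝ) < L0 := by exact_mod_cast hL01
  have hL0L : (L0 : ℝ) ≤ L := by linarith
  have h1 := hb A s hA k L0 (2 * ψ) (by positivity) (by linarith) hL01 (by
    have : 2 * ψ * (D k : ℝ) ^ 36 = 2 * X := by rw [hX]; ring
    rw [this]; linarith)
  have h2 : (cnt (fun j => A j 10) L ψ : ℝ) ≤
      (cnt (fun j => A j 10) L0 (2 * ψ) : ℝ) * (2 * ((L / L0 : ℕ) : ℝ) + 2) := by
    exact_mod_cast cnt_cover (fun j => A j 10) L L0 ψ hL01
  have h3 : (2 * ((L / L0 : ℕ) : ℝ) + 2) ≤ 4 * (L / L0) := by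
    have e1 : ((L / L0 : ℕ) : ℝ) ≤ L / L0 := Nat.cast_div_le
    have e2 : (1 : ℝ) ≤ L / L0 := by rw [le_div_iff₀ hL0p]; linarith
    linarith
  have h4 : min (D k * (2 * ψ) * F k) (L0 : ℝ) / (D k : ℝ) ^ 2 ≤ 2 * R := by
    rw [hR, ← mul_div_assoc]
    apply div_le_div_of_nonneg_right _ (by positivity)
    rw [mul_min_of_nonneg _ _ (by norm_num : (0:ℝ) ≤ 2)]
    apply min_le_min
    · linarith
    · linarith
  have h5 : (4 * ((L : ℝ) / L0)) * (1 + L0 * D k * (2 * ψ) / F k) ≤ 320 * (1 + L / X + P) := by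
    have e1 : (4 * ((L : ℝ) / L0)) * (1 + L0 * D k * (2 * ψ) / F k) = 4 * (L / L0) + 8 * P := by
      rw [hP]
      field_simp
      ring
    have e2 : (L : ℝ) / L0 ≤ 80 * (L / X) := by
      have : 80 * ((L : ℝ) / X) = L / (X / 80) := by field_simp
      rw [this]
      exact div_le_div_of_nonneg_left (by positivity) (by positivity) hL0ge
    rw [e1]
    linarith
  have h6 : (0 : ℝ) ≤ 4 * ((L : ℝ) / L0) := by positivity
  have hmin0 : 0 ≤ min (D k * (2 * ψ) * F k) (L0 : ℝ) / (D k : ℝ) ^ 2 := by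
    have : 0 ≤ min (D k * (2 * ψ) * F k) (L0 : ℝ) := le_min (by positivity) (by positivity)
    positivity
  calc (cnt (fun j => A j 10) L ψ : ℝ)
      ≤ (cnt (fun j => A j 10) L0 (2 * ψ) : ℝ) * (4 * ((L : ℝ) / L0)) :=
        h2.trans (mul_le_mul_of_nonneg_left h3 (Nat.cast_nonneg _))
    _ ≤ (C * (1 + L0 * D k * (2 * ψ) / F k) *
        (1 + min (D k * (2 * ψ) * F k) (L0 : ℝ) / (D k : ℝ) ^ 2)) * (4 * ((L : ℝ) / L0)) :=
        mul_le_mul_of_nonneg_right h1 h6
    _ = C * ((4 * ((L : ℝ) / L0)) * (1 + L0 * D k * (2 * ψ) / F k)) *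
        (1 + min (D k * (2 * ψ) * F k) (L0 : ℝ) / (D k : ℝ) ^ 2) := by ring
    _ ≤ C * (320 * (1 + L / X + P)) * (1 + 2 * R) := by
        apply mul_le_mul
        · exact mul_le_mul_of_nonneg_left h5 hC.le
        · linarith
        · linarith
        · positivity
    _ ≤ C * (320 * (1 + L / X + P)) * (2 * (1 + R)) := by
        apply mul_le_mul_of_nonneg_left (by linarith) (by positivity)
    _ = 640 * C * ((1 + L / X + P) * (1 + R)) := by ring
    _ ≤ (640 * C + 120) * ((1 + L / X + P) * (1 + R)) := by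
        apply mul_le_mul_of_nonneg_right (by linarith) (by positivity)
    _ = (640 * C + 120) * (1 + L / X + P) * (1 + R) := by ring

end Pool.Agent.W410.KT.CB
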